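import Pool.Agent.Helper30.UP.St

/-! # Project UP: module DRC (dependent random choice) -/

set_option autoImplicit false

noncomputable section

namespace Pool.Agent.Helper27.UP

open Finset Pool.Agent.Helper30.UP
open scoped Classical

lemma two_q {c : ℕ} (S : Finset (E c)) (d : E c) :
    (2 : ℝ) * ((S.filter (fun x => x ⬝ᵥ d = 0)).card : ℝ) = S.card + ∑ x ∈ S, chi x d := by
  have h : ∀ x ∈ S, chi x d = 2 * (if x ⬝ᵥ d = 0 then (1 : ℝ) else 0) - 1 := by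
    intro x _
    unfold chi
    split_ifs <;> norm_num
  rw [sum_congr rfl h, sum_sub_distrib, ← mul_sum, sum_boole]
  simp

lemma dc {c n : ℕ} (ℓ : ℕ) (s : Fin n → E c) (I : Finset (Fin n)) (S : Finset (E c))
    (w : Fin n → Fin n → ℝ) :
    ∑ X ∈ Fintype.piFinset (fun _ : Fin ℓ => S), ∑ σ : Fin ℓ → ZMod 2,
      ∑ i ∈ I.filter (fun i => (fun j => X j ⬝ᵥ s i) = σ),
        ∑ i' ∈ I.filter (fun i => (fun j => X j ⬝ᵥ s i) = σ), w i i' =
    ∑ i ∈ I, ∑ i' ∈ I, w i i' *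
      ((S.filter (fun x => x ⬝ᵥ (s i + s i') = 0)).card : ℝ) ^ ℓ := by
  have h1 : ∀ X : Fin ℓ → E c, ∑ σ : Fin ℓ → ZMod 2,
      ∑ i ∈ I.filter (fun i => (fun j => X j ⬝ᵥ s i) = σ),
        ∑ i' ∈ I.filter (fun i => (fun j => X j ⬝ᵥ s i) = σ), w i i' =
      ∑ i ∈ I, ∑ i' ∈ I, if (∀ j, X j ⬝ᵥ (s i + s i') = 0) then w i i' else 0 := by
    intro X
    simp_rw [sum_filter]
    rw [sum_comm]
    refine sum_congr rfl fun i _ => ?_
    rw [sum_ite_eq]
    simp only [mem_univ, if_true]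
    refine sum_congr rfl fun i' _ => ?_
    congr 1
    apply propext
    constructor
    · intro h j
      have := congrFun h j
      rw [dotProduct_add, this]
      exact z2_add_self _
    · intro h
      funext j
      have := h j
      rw [dotProduct_add] at this
      have h2 := z2_add_self (X j ⬝ᵥ s i)
      have h3 : X j ⬝ᵥ s i + X j ⬝ᵥ s i' = X j ⬝ᵥ s i + X j ⬝ᵥ s i := by rw [this, h2]
      exact add_left_cancel h3
  rw [sum_congr rfl fun X _ => h1 X, sum_comm]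
  refine sum_congr rfl fun i _ => ?_
  rw [sum_comm]
  refine sum_congr rfl fun i' _ => ?_
  rw [← sum_filter, sum_const, nsmul_eq_mul, mul_comm]
  congr 1
  have : (Fintype.piFinset (fun _ : Fin ℓ => S)).filter (fun X => ∀ j, X j ⬝ᵥ (s i + s i') = 0) =
      Fintype.piFinset (fun _ : Fin ℓ => S.filter (fun x => x ⬝ᵥ (s i + s i') = 0)) := by
    ext X
    simp only [mem_filter, Fintype.mem_piFinset]
    exact ⟨fun h j => ⟨h.1 j, h.2 j⟩, fun h => ⟨fun j => (h j).1, fun j => (h j).2⟩⟩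
  rw [this, Fintype.card_piFinset_const]
  push_cast
  rfl

theorem hDRC : StDRC := by
  intro θ h0 h1
  have hρ1 : (1 + θ / 2) / (1 + θ) < 1 := by rw [div_lt_one (by linarith)]; linarith
  have hρ0 : 0 ≤ (1 + θ / 2) / (1 + θ) := by positivity
  obtain ⟨m, hm⟩ := exists_pow_lt_of_lt_one (show (0 : ℝ) < 1 / 16 by norm_num) hρ1
  refine ⟨m + 1, ?_⟩
  intro c n s I S hI hS hyp
  set q : Fin n → Fin n → ℝ := fun i i' =>
    ((S.filter (fun x => x ⬝ᵥ (s i + s i') = 0)).card : ℝ) with hq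
  set bad : Fin n × Fin n → Prop := fun p => ∑ x ∈ S, chi x (s p.1 + s p.2) < θ / 2 * S.card
    with hbad
  set w : Fin n → Fin n → ℝ := fun i i' => 1 - 8 * (if bad (i, i') then 1 else 0) with hw
  have hIc : (0 : ℝ) < I.card := by exact_mod_cast hI.card_pos
  have hSc : (0 : ℝ) < S.card := by exact_mod_cast hS.card_pos
  set Q : ℝ := S.card * (1 + θ) / 2 with hQ
  have hQ0 : 0 < Q := by positivity
  have hP : ((I ×ˢ I).card : ℝ) = (I.card : ℝ) ^ 2 := by rw [card_product]; push_cast; ring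
  have hP0 : (0 : ℝ) < ((I ×ˢ I).card : ℝ) := by rw [hP]; positivity
  -- the mean of q
  have e1 : ∑ x ∈ S, (∑ i ∈ I, chi x (s i)) ^ 2 = ∑ p ∈ I ×ˢ I, ∑ x ∈ S, chi x (s p.1 + s p.2) := by
    rw [sum_comm]
    refine sum_congr rfl fun x _ => ?_
    rw [sq, sum_mul_sum, sum_product]
    exact sum_congr rfl fun i _ => sum_congr rfl fun i' _ => (chi_add_right _ _ _).symm
  have e2 : ((I ×ˢ I).card : ℝ) * Q ≤ ∑ p ∈ I ×ˢ I, q p.1 p.2 := by
    have e3 : ∑ p ∈ I ×ˢ I, (2 * q p.1 p.2) =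
        ((I ×ˢ I).card : ℝ) * S.card + ∑ p ∈ I ×ˢ I, ∑ x ∈ S, chi x (s p.1 + s p.2) := by
      rw [sum_congr rfl fun p _ => two_q S (s p.1 + s p.2), sum_add_distrib, sum_const,
        nsmul_eq_mul]
    rw [← mul_sum, ← e1] at e3
    rw [hQ]
    rw [hP] at e3 ⊢
    nlinarith
  have e4 : ((I ×ˢ I).card : ℝ) * Q ^ (m + 1) ≤ ∑ p ∈ I ×ˢ I, q p.1 p.2 ^ (m + 1) := by
    have e5 := pow_sum_div_card_le_sum_pow (s := I ×ˢ I) (f := fun p => q p.1 p.2)
      (fun p _ => Nat.cast_nonneg _) m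
    refine le_trans ?_ e5
    rw [le_div_iff₀ (by positivity)]
    calc ((I ×ˢ I).card : ℝ) * Q ^ (m + 1) * ((I ×ˢ I).card : ℝ) ^ m
        = (((I ×ˢ I).card : ℝ) * Q) ^ (m + 1) := by rw [mul_pow]; ring
      _ ≤ _ := by gcongr
  have e6 : ∑ p ∈ (I ×ˢ I).filter bad, q p.1 p.2 ^ (m + 1) ≤
      ((I ×ˢ I).card : ℝ) * (Q ^ (m + 1) / 16) := by
    have e7 : ∀ p ∈ (I ×ˢ I).filter bad, q p.1 p.2 ^ (m + 1) ≤ Q ^ (m + 1) / 16 := by
      intro p hp
      have hb : ∑ x ∈ S, chi x (s p.1 + s p.2) < θ / 2 * S.card := (mem_filter.1 hp).2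
      have h2 := two_q S (s p.1 + s p.2)
      have h3 : q p.1 p.2 ≤ Q * ((1 + θ / 2) / (1 + θ)) := by
        have : Q * ((1 + θ / 2) / (1 + θ)) = S.card * (1 + θ / 2) / 2 := by
          rw [hQ]; field_simp
        rw [this]
        show ((S.filter (fun x => x ⬝ᵥ (s p.1 + s p.2) = 0)).card : ℝ) ≤ _
        linarith
      calc q p.1 p.2 ^ (m + 1) ≤ (Q * ((1 + θ / 2) / (1 + θ))) ^ (m + 1) := by gcongr
        _ = Q ^ (m + 1) * ((1 + θ / 2) / (1 + θ)) ^ (m + 1) := by rw [mul_pow]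
        _ ≤ Q ^ (m + 1) * (1 / 16) := by
            apply mul_le_mul_of_nonneg_left _ (by positivity)
            rw [pow_succ]
            nlinarith [pow_nonneg hρ0 m]
        _ = Q ^ (m + 1) / 16 := by ring
    calc ∑ p ∈ (I ×ˢ I).filter bad, q p.1 p.2 ^ (m + 1)
        ≤ ∑ p ∈ (I ×ˢ I).filter bad, Q ^ (m + 1) / 16 := sum_le_sum e7
      _ = (((I ×ˢ I).filter bad).card : ℝ) * (Q ^ (m + 1) / 16) := by rw [sum_const, nsmul_eq_mul]
      _ ≤ ((I ×ˢ I).card : ℝ) * (Q ^ (m + 1) / 16) := by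
          apply mul_le_mul_of_nonneg_right _ (by positivity)
          exact_mod_cast card_filter_le _ _
  have e8 : (1 / 2) * ((I ×ˢ I).card : ℝ) * ((S.card : ℝ) / 2) ^ (m + 1) ≤
      ∑ i ∈ I, ∑ i' ∈ I, w i i' * q i i' ^ (m + 1) := by
    have e9 : ∑ i ∈ I, ∑ i' ∈ I, w i i' * q i i' ^ (m + 1) =
        ∑ p ∈ I ×ˢ I, q p.1 p.2 ^ (m + 1) - 8 * ∑ p ∈ (I ×ˢ I).filter bad, q p.1 p.2 ^ (m + 1) := by
      rw [sum_filter, mul_sum, ← sum_sub_distrib, sum_product]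
      refine sum_congr rfl fun i _ => sum_congr rfl fun i' _ => ?_
      simp only [hw]
      split_ifs <;> ring
    rw [e9]
    have e10 : ((S.card : ℝ) / 2) ^ (m + 1) ≤ Q ^ (m + 1) := by
      apply pow_le_pow_left₀ (by positivity)
      rw [hQ]
      nlinarith
    nlinarith
  -- choice
  have key : ∃ X ∈ Fintype.piFinset (fun _ : Fin (m + 1) => S), ∃ σ : Fin (m + 1) → ZMod 2,
      (1 / 2) * ((I ×ˢ I).card : ℝ) * (1 / 4) ^ (m + 1) ≤
      ∑ i ∈ I.filter (fun i => (fun j => X j ⬝ᵥ s i) = σ),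
        ∑ i' ∈ I.filter (fun i => (fun j => X j ⬝ᵥ s i) = σ), w i i' := by
    by_contra hcon
    push Not at hcon
    have hd := dc (m + 1) s I S w
    have hlt : ∑ X ∈ Fintype.piFinset (fun _ : Fin (m + 1) => S), ∑ σ : Fin (m + 1) → ZMod 2,
        ∑ i ∈ I.filter (fun i => (fun j => X j ⬝ᵥ s i) = σ),
          ∑ i' ∈ I.filter (fun i => (fun j => X j ⬝ᵥ s i) = σ), w i i' <
        ∑ X ∈ Fintype.piFinset (fun _ : Fin (m + 1) => S), ∑ σ : Fin (m + 1) → ZMod 2,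
          (1 / 2) * ((I ×ˢ I).card : ℝ) * (1 / 4) ^ (m + 1) := by
      apply sum_lt_sum_of_nonempty
      · obtain ⟨x, hx⟩ := hS
        exact ⟨fun _ => x, by rw [Fintype.mem_piFinset]; exact fun _ => hx⟩
      · intro X hX
        apply sum_lt_sum_of_nonempty univ_nonempty
        intro σ _
        exact hcon X hX σ
    rw [hd, sum_const, sum_const, Fintype.card_piFinset_const, card_univ, nsmul_eq_mul,
      nsmul_eq_mul] at hlt
    have hc2 : (Fintype.card (Fin (m + 1) → ZMod 2) : ℝ) = 2 ^ (m + 1) := by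
      simp
    rw [hc2] at hlt
    have e11 : ((S.card ^ (m + 1) : ℕ) : ℝ) * ((2 : ℝ) ^ (m + 1) *
        ((1 / 2) * ((I ×ˢ I).card : ℝ) * (1 / 4) ^ (m + 1))) =
        (1 / 2) * ((I ×ˢ I).card : ℝ) * ((S.card : ℝ) / 2) ^ (m + 1) := by
      push_cast
      have g1 : (2 : ℝ) ^ (m + 1) * (1 / 4) ^ (m + 1) = (1 / 2) ^ (m + 1) := by
        rw [← mul_pow]; norm_num
      have g2 : ((S.card : ℝ) / 2) ^ (m + 1) = (S.card : ℝ) ^ (m + 1) * (1 / 2) ^ (m + 1) := by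
        rw [← mul_pow]; congr 1; ring
      rw [g2, ← g1]
      ring
    rw [e11] at hlt
    exact absurd e8 (not_le.2 hlt)
  obtain ⟨X, hX, σ, hXσ⟩ := key
  set A := I.filter (fun i => (fun j => X j ⬝ᵥ s i) = σ) with hA
  have f1 : ∑ i ∈ A, ∑ i' ∈ A, w i i' =
      (A.card : ℝ) ^ 2 - 8 * (((A ×ˢ A).filter bad).card : ℝ) := by
    rw [card_filter, ← sum_product (f := fun p => w p.1 p.2)]
    simp only [hw]
    rw [sum_sub_distrib, ← mul_sum, sum_const, card_product]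
    push_cast
    simp
    ring
  rw [f1, hP] at hXσ
  have f2 : (0 : ℝ) ≤ (((A ×ˢ A).filter bad).card : ℝ) := by positivity
  refine ⟨A, filter_subset _ _, ?_, ?_⟩
  · have f3 : (I.card : ℝ) ^ 2 * (1 / 4) ^ (m + 1) * (1 / 2) ≤ (A.card : ℝ) ^ 2 := by linarith
    have f4 : (I.card : ℝ) ^ 2 ≤ (2 ^ (m + 1 + 1) * (A.card : ℝ)) ^ 2 := by
      have f5 : ((2 : ℝ) ^ (m + 1 + 1)) ^ 2 = 4 * 4 ^ (m + 1) := by
        rw [← pow_mul, show (4 : ℝ) = 2 ^ 2 by norm_num, ← pow_mul, ← pow_add]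
        congr 1
        ring
      rw [mul_pow, f5]
      have f6 : (4 : ℝ) ^ (m + 1) * (1 / 4) ^ (m + 1) = 1 := by
        rw [← mul_pow]; norm_num
      have f7 : (0 : ℝ) < 4 ^ (m + 1) := by positivity
      have f8 := mul_le_mul_of_nonneg_left f3 f7.le
      have f9 : (4 : ℝ) ^ (m + 1) * ((I.card : ℝ) ^ 2 * (1 / 4) ^ (m + 1) * (1 / 2)) =
          (I.card : ℝ) ^ 2 * (1 / 2) := by
        rw [show (4 : ℝ) ^ (m + 1) * ((I.card : ℝ) ^ 2 * (1 / 4) ^ (m + 1) * (1 / 2)) =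
          (I.card : ℝ) ^ 2 * ((4 : ℝ) ^ (m + 1) * (1 / 4) ^ (m + 1)) * (1 / 2) by ring, f6]
        ring
      rw [f9] at f8
      nlinarith [sq_nonneg (A.card : ℝ)]
    have f10 := abs_le_of_sq_le_sq' f4 (by positivity)
    exact_mod_cast f10.2
  · have f3 : (0 : ℝ) ≤ 1 / 2 * (I.card : ℝ) ^ 2 * (1 / 4) ^ (m + 1) := by positivity
    have f4 : (8 : ℝ) * (((A ×ˢ A).filter bad).card : ℝ) ≤ (A.card : ℝ) ^ 2 := by linarith
    exact_mod_cast f4

end Pool.Agent.Helper27.UP
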