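import Pool.Agent.Helper30.UP.St

/-! # Project UP: module LL (subspace with many columns) -/

set_option autoImplicit false

noncomputable section

namespace Pool.Agent.Helper27.UP

open Finset Pool.Agent.Helper30.UP
open scoped Classical

lemma wt_le_nz {c n : ℕ} (s : Fin n → E c) (x : E c) : wt s x ≤ nz s := by
  unfold wt nz
  apply card_le_card
  intro i hi
  rw [mem_filter] at hi ⊢
  refine ⟨hi.1, fun h => hi.2 ?_⟩
  rw [h, dotProduct_zero]

lemma nz_le {c n : ℕ} (s : Fin n → E c) : nz s ≤ n := by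
  unfold nz
  exact (card_filter_le _ _).trans (by simp)

lemma sum_chi_I {c n : ℕ} (s : Fin n → E c) (x : E c) :
    ∑ i ∈ univ.filter (fun i => s i ≠ 0), chi x (s i) = (nz s : ℝ) - 2 * wt s x := by
  have h : ∀ i ∈ univ.filter (fun i => s i ≠ 0), chi x (s i) =
      1 - 2 * (if x ⬝ᵥ s i ≠ 0 then (1 : ℝ) else 0) := by
    intro i _
    unfold chi
    split_ifs with h1 h2 h2
    · exact absurd h1 h2
    · norm_num
    · norm_num
  rw [sum_congr rfl h, sum_sub_distrib, ← mul_sum, sum_boole, filter_filter, sum_const]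
  have e : (univ.filter (fun i => s i ≠ 0 ∧ x ⬝ᵥ s i ≠ 0)) =
      univ.filter (fun i => x ⬝ᵥ s i ≠ 0) := by
    ext i
    simp only [mem_filter, mem_univ, true_and]
    refine ⟨fun h => h.2, fun h => ⟨fun h0 => h ?_, h⟩⟩
    rw [h0, dotProduct_zero]
  rw [e]
  unfold nz wt
  simp

theorem hLL (hTY : StTY) (hDRC : StDRC) (hSD : StSD) (hFR : StFR) : StLL := by
  intro K hK
  have hK1 : (1 : ℝ) ≤ K := by exact_mod_cast hK
  have hK0 : (0 : ℝ) < K := by linarith
  have hθ0 : (0 : ℝ) < 1 / (K : ℝ) ^ 2 := by positivity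
  have hθ1 : 1 / (K : ℝ) ^ 2 ≤ 1 := by
    rw [div_le_one (by positivity)]
    nlinarith
  obtain ⟨ℓ, hℓ⟩ := hDRC (1 / (K : ℝ) ^ 2) hθ0 hθ1
  set κ : ℝ := max (2 * (K : ℝ) ^ 2) (2 ^ (ℓ + 1)) with hκ
  have hκ1 : (1 : ℝ) ≤ κ := le_trans (by nlinarith) (le_max_left _ _)
  obtain ⟨K₂, hK₂, hsd⟩ := hSD (1 / (K : ℝ) ^ 2) κ hθ0 hθ1 hκ1
  obtain ⟨F, hF⟩ := hFR K₂ hK₂
  refine ⟨max 1 (|F| * K₂), 1 / (K * 2 ^ (ℓ + 2)), le_max_left _ _, by positivity, ?_⟩
  intro c n D s hD hn hdiv hmul hex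
  obtain ⟨ω, hω0, ⟨x0, hx0⟩, -, -, hty, -, htyS⟩ := hTY K c n D s hK hD hn hdiv hmul hex
  set I : Finset (Fin n) := univ.filter (fun i => s i ≠ 0) with hI
  set S : Finset (E c) := univ.filter (fun x => wt s x ≠ ω) with hS
  have hIc : I.card = nz s := rfl
  have hDnz : D ≤ nz s := by
    have h1 : D ∣ ω := hx0 ▸ hdiv x0
    have h2 := Nat.le_of_dvd (Nat.pos_of_ne_zero hω0) h1
    rw [← hx0] at h2
    exact h2.trans (wt_le_nz s x0)
  have hnR : (n : ℝ) ≤ K * D := by exact_mod_cast hn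
  have hDR : (D : ℝ) ≤ nz s := by exact_mod_cast hDnz
  have hD1 : (1 : ℝ) ≤ D := by exact_mod_cast hD
  have hnzn : (nz s : ℝ) ≤ n := by exact_mod_cast nz_le s
  have hnK : (n : ℝ) ≤ K * nz s := hnR.trans (by gcongr)
  have hInon : I.Nonempty := by
    rw [← Finset.card_pos, hIc]; omega
  have hSnon : S.Nonempty := ⟨0, by rw [hS, mem_filter, wt_zero]; exact ⟨mem_univ _, hω0.symm⟩⟩
  have hSc : (0 : ℝ) < S.card := by exact_mod_cast hSnon.card_pos
  have h1 : 1 / (K : ℝ) ^ 2 * (I.card : ℝ) ^ 2 * S.card ≤ ∑ x ∈ S, (∑ i ∈ I, chi x (s i)) ^ 2 := by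
    have h2 : ∀ x ∈ S, 1 / (K : ℝ) ^ 2 * (I.card : ℝ) ^ 2 ≤ (∑ i ∈ I, chi x (s i)) ^ 2 := by
      intro x hx
      rw [hI, sum_chi_I]
      have h3 := htyS x (mem_filter.1 hx).2
      have h4 : (D : ℝ) ^ 2 ≤ ((nz s : ℝ) - 2 * wt s x) ^ 2 := by
        rw [← sq_abs ((nz s : ℝ) - 2 * wt s x)]
        exact pow_le_pow_left₀ (by linarith) h3 2
      refine le_trans ?_ h4
      rw [one_div, inv_mul_le_iff₀ (by positivity), ← mul_pow]
      apply pow_le_pow_left₀ (by positivity)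
      show ((univ.filter (fun i => s i ≠ 0)).card : ℝ) ≤ K * D
      exact hnzn.trans hnR
    calc 1 / (K : ℝ) ^ 2 * (I.card : ℝ) ^ 2 * S.card
        = ∑ x ∈ S, 1 / (K : ℝ) ^ 2 * (I.card : ℝ) ^ 2 := by
          rw [sum_const, nsmul_eq_mul, mul_comm]
      _ ≤ _ := sum_le_sum h2
  obtain ⟨A, hAI, hAc, hAb⟩ := hℓ c n s I S hInon hSnon h1
  have hAcR : (I.card : ℝ) ≤ 2 ^ (ℓ + 1) * A.card := by exact_mod_cast hAc
  have hn2 : ((I ×ˢ I).filter (fun p => s p.1 = s p.2)).card = n2 s := by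
    unfold n2
    congr 1
    ext p
    simp only [hI, mem_filter, mem_product, mem_univ, true_and]
    constructor
    · rintro ⟨⟨h2, -⟩, h3⟩
      exact ⟨h2, h3⟩
    · rintro ⟨h2, h3⟩
      exact ⟨⟨h2, h3 ▸ h2⟩, h3⟩
  have h2 : (2 : ℝ) ^ c * ((I ×ˢ I).filter (fun p => s p.1 = s p.2)).card ≤
      κ * S.card * (I.card : ℝ) ^ 2 := by
    rw [hn2, hIc]
    have h3 : (2 : ℝ) * n ^ 2 * S.card ≤ κ * S.card * (nz s : ℝ) ^ 2 := by
      have h4 : (n : ℝ) ^ 2 ≤ (K : ℝ) ^ 2 * (nz s : ℝ) ^ 2 := by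
        rw [← mul_pow]
        exact pow_le_pow_left₀ (by positivity) hnK 2
      have h5 : 2 * (K : ℝ) ^ 2 ≤ κ := le_max_left _ _
      calc (2 : ℝ) * n ^ 2 * S.card ≤ 2 * ((K : ℝ) ^ 2 * (nz s : ℝ) ^ 2) * S.card := by gcongr
        _ = 2 * (K : ℝ) ^ 2 * S.card * (nz s : ℝ) ^ 2 := by ring
        _ ≤ κ * S.card * (nz s : ℝ) ^ 2 := by gcongr
    refine le_trans ?_ h3
    rw [mul_comm]
    exact hty
  have h3 : (I.card : ℝ) ≤ κ * A.card := hAcR.trans (by
    have : (2 : ℝ) ^ (ℓ + 1) ≤ κ := le_max_right _ _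
    gcongr)
  obtain ⟨A', hA'A, hA'c, hBB, hBn⟩ := hsd c n s I A S hInon hSnon hAI h2 h3 hAb
  have hA'R : (A.card : ℝ) ≤ 2 * A'.card := by exact_mod_cast hA'c
  have hI0 : (0 : ℝ) < I.card := by exact_mod_cast hInon.card_pos
  have hA0 : (0 : ℝ) < A.card := by
    by_contra hcon
    have : (A.card : ℝ) = 0 := le_antisymm (not_lt.1 hcon) (by positivity)
    rw [this, mul_zero] at hAcR
    linarith
  have hA'0 : (0 : ℝ) < A'.card := by linarith
  have hA'n : A'.Nonempty := by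
    rw [← Finset.card_pos]
    exact_mod_cast hA'0
  have hBnon : (A'.image s).Nonempty := hA'n.image s
  have hB0 : (0 : ℝ) < (A'.image s).card := by exact_mod_cast hBnon.card_pos
  have hH := hF c (A'.image s) hBnon hBB
  refine ⟨Submodule.span (ZMod 2) ((A'.image s : Finset (E c)) : Set (E c)), ?_, ?_⟩
  · have h4 : (I.card : ℝ) ≤ ((I ×ˢ I).filter (fun p => s p.1 = s p.2)).card := by
      have : I.card ≤ ((I ×ˢ I).filter (fun p => s p.1 = s p.2)).card := by
        have h5 : (I.image (fun i => (i, i))).card = I.card :=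
          card_image_of_injective _ (fun a b h => (Prod.mk.inj h).1)
        rw [← h5]
        apply card_le_card
        intro p hp
        obtain ⟨i, hi, rfl⟩ := mem_image.1 hp
        exact mem_filter.2 ⟨mem_product.2 ⟨hi, hi⟩, rfl⟩
      exact_mod_cast this
    have h5 : ((A'.image s).card : ℝ) ≤ K₂ * I.card := by
      have h6 : ((A'.image s).card : ℝ) * I.card ≤ K₂ * (I.card : ℝ) ^ 2 :=
        (mul_le_mul_of_nonneg_left h4 hB0.le).trans hBn
      have h7 : ((A'.image s).card : ℝ) * I.card ≤ (K₂ * I.card) * I.card := by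
        rw [mul_assoc, ← sq]; exact h6
      exact le_of_mul_le_mul_right h7 hI0
    have h6 : (I.card : ℝ) ≤ n := by rw [hIc]; exact hnzn
    calc (Nat.card ↥(Submodule.span (ZMod 2) ((A'.image s : Finset (E c)) : Set (E c))) : ℝ)
        ≤ F * (A'.image s).card := hH
      _ ≤ |F| * (A'.image s).card := by gcongr; exact le_abs_self F
      _ ≤ |F| * (K₂ * n) := by
          gcongr
          exact h5.trans (by gcongr)
      _ = (|F| * K₂) * n := by ring
      _ ≤ max 1 (|F| * K₂) * n := by gcongr; exact le_max_right _ _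
  · have h4 : A'.card ≤ (univ.filter (fun i => s i ∈ Submodule.span (ZMod 2)
        ((A'.image s : Finset (E c)) : Set (E c)) ∧ s i ≠ 0)).card := by
      apply card_le_card
      intro i hi
      rw [mem_filter]
      refine ⟨mem_univ _, Submodule.subset_span ?_, ?_⟩
      · rw [mem_coe]
        exact mem_image_of_mem s hi
      · exact (mem_filter.1 (hAI (hA'A hi))).2
    have h4R : (A'.card : ℝ) ≤ ((univ.filter (fun i => s i ∈ Submodule.span (ZMod 2)
        ((A'.image s : Finset (E c)) : Set (E c)) ∧ s i ≠ 0)).card : ℕ) := by exact_mod_cast h4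
    refine le_trans ?_ h4R
    rw [one_div, inv_mul_le_iff₀ (by positivity)]
    calc (n : ℝ) ≤ K * nz s := hnK
      _ = K * I.card := by rw [hIc]
      _ ≤ K * (2 ^ (ℓ + 1) * A.card) := by gcongr
      _ ≤ K * (2 ^ (ℓ + 1) * (2 * A'.card)) := by gcongr
      _ = K * 2 ^ (ℓ + 2) * A'.card := by ring

end Pool.Agent.Helper27.UP
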